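import Pool.Agent.Q229.HP.Run

/-!
# Deciding whether a straight-line drawing admits a `δ`-HPED

For every rational `δ` the problem is in `P`.  For an arbitrary real `δ` it asks whether `δ` is
below a rational number which is computed from the drawing in polynomial time; so it is in `P`
whenever the cut of `δ` is in `P`, and it is never `NP`-hard unless `P = NP`.
-/

set_option autoImplicit false

namespace Pool.Agent.Results.MP_6c5ec8_lc.HpedInP

open Pool.Agent Pool.Agent.NPC Q229.HP

/-- **The complexity of recognising drawings with a `δ`-HPED**, for all `0 < δ < 1/2`. -/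
theorem result :
    -- for every rational `δ` the problem is in `P`
    (∀ δ : ℚ, 0 < δ → δ < 1 / 2 → InPP (HPED (δ : ℝ))) ∧
    -- one polynomial-time computable rational threshold serves all real `δ`
    (∃ (thr : Inst → ℚ) (F : List Bool → List Bool), PolyTime F ∧ (∀ I, F (bits I) = bits (thr I)) ∧
      ∀ δ : ℝ, 0 < δ → δ < 1 / 2 → ∀ I, HPED δ I ↔ IsDrawing I ∧ δ < (thr I : ℝ)) ∧
    -- for every real `δ` the problem is in `P` if comparing `δ` with rational numbers is
    (∀ δ : ℝ, 0 < δ → δ < 1 / 2 → InPP (fun q : ℚ => δ < (q : ℝ)) → InPP (HPED δ)) ∧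
    -- for no real `δ` is the problem `NP`-hard, unless `P = NP`
    (∀ δ : ℝ, 0 < δ → δ < 1 / 2 → NPHardP (HPED δ) → ∀ L, InNP L → InP L) := by
  have key : ∀ δ : ℝ, 0 < δ → δ < 1 / 2 → InPP (fun q : ℚ => δ < (q : ℝ)) → InPP (HPED δ) := by
    intro δ h0 h1 hcut
    obtain ⟨e, he, he'⟩ := W954.Sav.exists_typed_test hcut
    refine inPP_of (d := fun I => drawB I && e (thr I)) (Poly.and poly_drawB (he.comp poly_thr)) ?_
    intro I
    rw [hped_iff_thr ⟨h0, h1⟩, Bool.and_eq_true, drawB_iff, he']
  refine ⟨fun δ h0 h1 => ?_, ?_, key, fun δ h0 h1 hard => ?_⟩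
  · refine key (δ : ℝ) (by exact_mod_cast h0) ?_ ?_
    · have : ((δ : ℚ) : ℝ) < ((1 / 2 : ℚ) : ℝ) := by exact_mod_cast h1
      simpa using this
    · refine inPP_of (d := fun q : ℚ => decide (δ < q))
        (Q229.RatP.poly_lt (NPC.Poly.const δ) Poly.id) fun q => ?_
      rw [decide_eq_true_iff]
      exact_mod_cast Iff.rfl
  · refine ⟨thr, _, polyTime_opt (g := fun x => (unbits Inst x).map thr)
      (Poly.optMap poly_unbits (poly_thr.comp (Poly.snd Poly.id))), fun I => ?_,
      fun δ h0 h1 I => hped_iff_thr ⟨h0, h1⟩⟩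
    simp only [unbits_bits, Option.map_some]
  · exact Q229.Sel.collapse poly_score h0.le (hped_iff_score ⟨h0, h1⟩) hard

end Pool.Agent.Results.MP_6c5ec8_lc.HpedInP
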